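import Pool.Agent.H531.IX.Fin4
import Pool.Agent.H531.IX.CNT
import Pool.Agent.H531.IX.KK
import Pool.Agent.H531.IX.RAI
import Pool.Agent.H531.IX.REGU
import Pool.Agent.H531.IX.SQ
import Pool.Agent.H531.IX.LUE
import Pool.Agent.H531.IX.THP
import Pool.Agent.H531.IX.THE
import Pool.Agent.H531.IX.GOL
import Pool.Agent.H531.IX.ONE
import Pool.Agent.H531.IX.TWO
import Pool.Agent.H531.IX.FB

set_option autoImplicit false

/-!
# Sums of iterated-index primes in the random sieve model: all types `(a, b)` at once

For every prime `q` a residue class `a q` modulo `q` is drawn uniformly and independently. The random primes are the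
integers `v ≥ 3` which are, for all primes `q ≤ zBFT v`, not in the class `0` modulo `q` if `q ≤ (log v) ^ c`, and not in the
class `a q` modulo `q` if `q > (log v) ^ c`. This is the model of Banks, Ford and Tao (*Large prime gaps and
probabilistic models*) in which the small primes sieve out the class `0` as they do for the true primes, `c > 1` is
arbitrary. `r x` is the `x`-th random prime and `ⁱr_x = r^(i+1)(x)`, as in the problem.

The theorem: almost surely, for all large `n` and ALL types `(i, k)` with `f₂ (i, k) ≤ n` the number `2 n` has a representation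
of the type `(i, k)`, even at least `n ^ 0.99` of them. This is the statement of the question, for the random primes, for
all types simultaneously, up to finitely many `n` in all: almost surely, for all but finitely many types EVERY even
number `2 n ≥ 2 f₂` has a representation, and for each of the other types all but finitely many even numbers. The number
of iterations of the index grows with `n`, up to `√(2 log₂ n)`.

The proof uses the index law `Pool.Agent.H531.IX.law`: for the random primes `p` in `(X, X2]`, `X2 ≤ 2X`, the proportion of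
those with the index in a set `T` that is determined by the classes modulo the primes up to the sieving limit of `X` is
the density of `T` in short intervals, up to `1 ± ε` and `X ^ 0.99`, with an exceptional probability `exp (-X ^ 0.4)`. It is
applied first to the smaller summand `v`, with the condition that `2n - v` survives the primes up to the sieving limit of
`v`, and then, after a thinning by the independent classes modulo the fresh primes, to the larger summand. The sets of
the iterated-index random primes are regular in short intervals, uniformly in the number of the iterations.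
-/

open MeasureTheory ProbabilityTheory Filter Topology

namespace Pool.Agent.Results.MP_e3f158_nt.AllTypesRandomSieve

/-- `V m = ∏ (1 - 1 / q)` over the primes `q ≤ m` -/
noncomputable def V (m : ℕ) : ℝ := ∏ q ∈ (Finset.range (m + 1)).filter Nat.Prime, (1 - 1 / (q : ℝ))

/-- the classes `a q` are independent, and `a q` is uniform on `0, …, q - 1` for every prime `q` -/
structure Model {Ω : Type} [MeasurableSpace Ω] (P : Measure Ω) (a : ℕ → Ω → ℕ) : Prop where
  measurable : ∀ q, Measurable (a q)
  independent : iIndepFun a P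
  uniform : ∀ q, q.Prime → ∀ r < q, P.real {ω | a q ω = r} = 1 / q

/-- the sieving limit of Banks, Ford and Tao: the largest `m` with `∏_{q ≤ m} (1 - 1 / q)⁻¹ ≤ log n` -/
noncomputable def zBFT (n : ℕ) : ℕ := sSup {m : ℕ | (V m)⁻¹ ≤ Real.log n}

open Classical in
/-- the set of the random primes of a sample -/
def R {Ω : Type} (c : ℝ) (a : ℕ → Ω → ℕ) (ω : Ω) : Set ℕ :=
  {v | 3 ≤ v ∧ ∀ q ≤ zBFT v, q.Prime → v % q ≠ if (q : ℝ) ≤ Real.log v ^ c then 0 else a q ω}

/-- the `m`-th element of `A` in increasing order, `m ≥ 1` -/
noncomputable def nthEl (A : Set ℕ) (m : ℕ) : ℕ := Nat.nth (fun u => u ∈ A) (m - 1)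

/-- the `x`-th `i`-prime of `A`: the `(i + 1)`-fold iterate of the function `nthEl A` at `x` -/
noncomputable def iPrime (A : Set ℕ) (i x : ℕ) : ℕ := (nthEl A)^[i + 1] x

/-- the number of the representations of `2 n` of the type `(i, k)` -/
noncomputable def number (A : Set ℕ) (i k n : ℕ) : ℕ :=
  {w : ℕ × ℕ | 1 ≤ w.1 ∧ 1 ≤ w.2 ∧ iPrime A i w.1 + iPrime A k w.2 = 2 * n ∧ iPrime A i w.1 ≠ iPrime A k w.2}.ncard

/-- the threshold `f₂` of the problem -/
noncomputable def f₂ (a b : ℕ) : ℝ :=
  if a = b then
    if a = 0 then 2 ^ ((a + 1) * (b + 1) * (a + b + 2))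
    else (2 : ℝ) ^ (((a : ℝ) + 1) ^ 2 * (2 * a + 3) / a - 2 * a)
  else (2 : ℝ) ^ ((((a + 1) * (b + 1) * (a + b + 2) : ℕ) : ℝ) - (((a : ℝ) + b) - 2))

theorem result :
    (∃ (Ω : Type) (_ : MeasurableSpace Ω) (P : Measure Ω) (a : ℕ → Ω → ℕ), Model P a) ∧
    ∀ c : ℝ, 1 < c → ∀ (Ω : Type) [MeasurableSpace Ω] (P : Measure Ω) (a : ℕ → Ω → ℕ), Model P a →
      ∀ᵐ ω ∂P, (R c a ω).Infinite ∧ ∀ᶠ n : ℕ in atTop, ∀ i k : ℕ, f₂ i k ≤ n →
        (n : ℝ) ^ (0.99 : ℝ) ≤ number (R c a ω) i k n := by
  classical
  refine ⟨?_, ?_⟩
  · obtain ⟨Ω, i, P, a, h⟩ := Pool.Agent.T2H32.BF.exists_model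
    exact ⟨Ω, i, P, a, h.measurable, h.independent, h.uniform⟩
  · intro c hc Ω _ P a hmod
    have h : Pool.Agent.T2H32.BF.Model P a := ⟨hmod.measurable, hmod.independent, hmod.uniform⟩
    have e : ∀ ω, Pool.Agent.H531.IX.RS Pool.Agent.T2H32.BF.z0 (Pool.Agent.H559.HY.WW c) (fun q => a q ω) = R c a ω := by
      intro ω
      ext v
      refine and_congr_right fun hv => forall_congr' fun q => forall_congr' fun hq => forall_congr' fun hp => ?_
      have h1 : q ≤ Pool.Agent.H559.HY.WW c v ↔ (q : ℝ) ≤ Real.log v ^ c := by
        unfold Pool.Agent.H559.HY.WW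
        exact Nat.le_floor_iff (Real.rpow_nonneg (Real.log_natCast_nonneg v) c)
      by_cases h2 : q ≤ Pool.Agent.H559.HY.WW c v
      · rw [if_pos h2, if_pos (h1.1 h2)]
      · rw [if_neg h2, if_neg (fun h3 => h2 (h1.2 h3))]
    filter_upwards [Pool.Agent.H531.IX.fin4 Pool.Agent.H531.IX.cnt Pool.Agent.H531.IX.kk_ev Pool.Agent.H531.IX.rai
      Pool.Agent.H531.IX.regu Pool.Agent.H531.IX.sq Pool.Agent.H531.IX.lue Pool.Agent.H531.IX.thp Pool.Agent.H531.IX.the
      Pool.Agent.H531.IX.gol Pool.Agent.H531.IX.one Pool.Agent.H531.IX.two Pool.Agent.H531.IX.fb c hc Ω P a h] with ω hω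
    rw [e] at hω
    exact hω

end Pool.Agent.Results.MP_e3f158_nt.AllTypesRandomSieve
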