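import Pool.Agent.H563.AP.Main

/-!
# Thin sets of iterated primes which represent, with an almost prime, all but very few numbers, all types at once

Let `ε > 0`.  There are a constant `K` and, for every `a`, ONE fixed set `Q a` of `a`-primes with at most
`K (log x) ^ 2` elements up to `x` (for all `a` and `x ≥ 2`; `K` does not depend on `a`), such that for all large `j`
all the integers `N` in `(2 ^ j, 2 ^ (j + 1)]`, with at most `exp (5 √j log j)` exceptions, have the following property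
for ALL `a` with `f₂ (a, 0) ≤ N` (the range of the question): there are at least `j` elements `q` of `Q a` with
`N = q + m s`, where all the prime factors of `m` are `< N ^ ε` and `s` has at most two prime factors, counted with
multiplicity, which are `> (N / 2) ^ (1 / 7)`.  For a single `a` with `(a + 1) log j ≤ η j` there are at most
`K (K j) ^ a` exceptions (boundedly many for `a = 0`).

So the whole set of the `a`-primes, which has about `x / (log x) ^ (a + 1)` elements, can be replaced by a set with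
`O((log x) ^ 2)` elements, and the number of the exceptional `N` is not larger than what is known for the whole set.

Method: for the `N` which are not exceptional a positive proportion of all the `a`-primes up to `2 ^ j` can be used (a
result of the library on sparse sets of primes); a choice of `O(j)` of them, larger than the square root of `2 ^ j`, by
the method of conditional expectations with an exponential potential is good for all these `N`.
-/

set_option autoImplicit false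

namespace Pool.Agent.Results.MP_e3f158_nt.ThinSetsOfIteratedPrimes

open Finset Filter Topology
open scoped Classical

/-- the `x`-th prime, for `x ≥ 1` -/
noncomputable def pr (x : ℕ) : ℕ := Nat.nth Nat.Prime (x - 1)

/-- the `x`-th `i`-prime, for `x ≥ 1`: the `(i + 1)`-fold iterate of `pr` -/
noncomputable def iPrime (i x : ℕ) : ℕ := pr^[i + 1] x

/-- the function `f₂` of the question -/
noncomputable def f₂ (a b : ℕ) : ℝ :=
  if a = b then
    (if a = 0 then (2 : ℝ) ^ (((a : ℝ) + 1) * (b + 1) * (a + b + 2))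
      else (2 : ℝ) ^ (((a : ℝ) + 1) ^ 2 * (2 * a + 3) / a - 2 * a))
  else (2 : ℝ) ^ (((a : ℝ) + 1) * (b + 1) * (a + b + 2) - (a + b - 2))

/-- `N = q + m s` with positive integers `m`, `s`, where all prime factors of `m` are `< N ^ ε` and `s` has at most two
prime factors (counted with multiplicity), all of them `> (N / 2) ^ (1 / 7)` -/
def Rep (ε : ℝ) (N q : ℕ) : Prop :=
  ∃ m s : ℕ, 0 < m ∧ 0 < s ∧ q + m * s = N ∧
    (∀ l : ℕ, l.Prime → l ∣ m → (l : ℝ) < (N : ℝ) ^ ε) ∧
    s.primeFactorsList.length ≤ 2 ∧ ∀ r ∈ s.primeFactors, ((N : ℝ) / 2) ^ (1 / 7 : ℝ) < r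

/-- the number of the `q` in `Q` with `N = q + m s` as above -/
noncomputable def hits (ε : ℝ) (Q : Set ℕ) (N : ℕ) : ℕ := {q | q ∈ Q ∧ Rep ε N q}.ncard

lemma rep_of {ε : ℝ} (hε : 0 < ε) {X N q : ℕ} (h1 : X < N) (h2 : N ≤ 2 * X)
    (h : Pool.Agent.Results.MP_e3f158_nt.APrimePlusAlmostPrime.Represents ε X N q) : Rep ε N q := by
  obtain ⟨m, s, hm, hs, hms, hl, hs2, hr⟩ := h
  have hXN : (X : ℝ) ≤ N := by exact_mod_cast h1.le
  have hNX : (N : ℝ) / 2 ≤ X := by
    have : (N : ℝ) ≤ 2 * X := by exact_mod_cast h2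
    linarith
  refine ⟨m, s, hm, hs, hms, fun l hl1 hl2 => ?_, hs2, fun r hr1 => ?_⟩
  · exact (hl l hl1 hl2).trans_le (Real.rpow_le_rpow (by positivity) hXN hε.le)
  · exact (Real.rpow_le_rpow (by positivity) hNX (by norm_num)).trans_lt (hr r hr1)

lemma hits_ge {ε : ℝ} (hε : 0 < ε) {X N : ℕ} (h1 : X < N) (h2 : N ≤ 2 * X) {Q : Set ℕ} {S : Finset ℕ}
    (hS : (S : Set ℕ) ⊆ Q) :
    (S.filter (Pool.Agent.Results.MP_e3f158_nt.APrimePlusAlmostPrime.Represents ε X N)).card ≤ hits ε Q N := by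
  unfold hits
  rw [← Set.ncard_coe_finset]
  apply Set.ncard_le_ncard
  · intro q hq
    rw [mem_coe, mem_filter] at hq
    exact ⟨hS hq.1, rep_of hε h1 h2 hq.2⟩
  · apply Set.Finite.subset (Set.finite_Iic N)
    rintro q ⟨_, m, s, _, _, hms, _⟩
    rw [Set.mem_Iic]
    omega

/-- **Thin sets of iterated primes, all types `(a, 0)` at once.**  One thin set `Q a` of `a`-primes for every `a`: with
few exceptions, `N = q + m s` for at least `j` elements `q` of `Q a`, for all `N` in `(2 ^ j, 2 ^ (j + 1)]`; for a single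
`a`, and for all `a` with `f₂ (a, 0) ≤ N` at the same time. -/
theorem result (ε : ℝ) (hε : 0 < ε) : ∃ (K η : ℝ) (Q : ℕ → Set ℕ), 0 < η ∧
    (∀ a, ∀ q ∈ Q a, ∃ u : ℕ, 1 ≤ u ∧ iPrime a u = q) ∧
    (∀ a x : ℕ, 2 ≤ x → ({q | q ∈ Q a ∧ q ≤ x}.ncard : ℝ) ≤ K * (Real.log x) ^ 2) ∧
    ∀ᶠ j : ℕ in atTop,
      (∀ a : ℕ, ((a : ℝ) + 1) * Real.log j ≤ η * j →
        ({N : ℕ | 2 ^ j < N ∧ N ≤ 2 ^ (j + 1) ∧ ¬ j ≤ hits ε (Q a) N}.ncard : ℝ) ≤ K * (K * j) ^ a) ∧
      ({N : ℕ | 2 ^ j < N ∧ N ≤ 2 ^ (j + 1) ∧ ¬ ∀ a : ℕ, f₂ a 0 ≤ N → j ≤ hits ε (Q a) N}.ncard : ℝ) ≤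
        Real.exp (5 * (√(j : ℝ) * Real.log j)) := by
  obtain ⟨c, C, K₀, η₀, hc, hC, hK₀, hη₀, hlib⟩ :=
    Pool.Agent.Results.MP_e3f158_nt.APrimePlusAlmostPrime.result ε hε
  obtain ⟨δ, hδd⟩ : ∃ δ, δ = min c 1 / 2 := ⟨_, rfl⟩
  have hδ : 0 < δ := by
    have : 0 < min c 1 := lt_min hc one_pos
    rw [hδd]
    positivity
  have hpos := Pool.Agent.H563.AP.pos_ev ε c K₀ η₀ hc hK₀ hη₀ (hlib.mono fun X h a ha => (h.1 a ha).1)
  rw [← hδd] at hpos
  obtain ⟨η₁, hη₁⟩ : ∃ η₁, η₁ = min η₀ (1 / 8) := ⟨_, rfl⟩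
  rw [← hη₁] at hpos
  have hη₁0 : 0 < η₁ := by rw [hη₁]; exact lt_min hη₀ (by norm_num)
  have hη₁1 : η₁ ≤ η₀ := by rw [hη₁]; exact min_le_left _ _
  have hrange := Pool.Agent.H563.AP.range_f2 η₁ hη₁0
  obtain ⟨S, hS⟩ : ∃ S : ℕ → ℕ → Finset ℕ, S = fun a j => Pool.Agent.H563.AP.SS ε c δ a j := ⟨_, rfl⟩
  have t2 : Tendsto (fun j : ℕ => 2 ^ j) atTop atTop := tendsto_pow_atTop_atTop_of_one_lt (by norm_num)
  have hκ : 0 ≤ 16 / δ + 1 := by positivity
  refine ⟨max (24 * (16 / δ + 1)) (max C K₀), η₁ / 2, fun a => {q | ∃ j, q ∈ S a j}, by positivity, ?_, ?_, ?_⟩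
  · rintro a q ⟨j, hj⟩
    rw [hS] at hj
    have h1 := (Pool.Agent.H563.AP.SS_sub hj).2.2
    unfold Pool.Agent.Results.MP_e3f158_nt.APrimePlusAlmostPrime.aPrimes at h1
    rw [mem_filter] at h1
    exact h1.2
  · intro a x hx
    have h1 := Pool.Agent.H563.AP.count hκ (S a) (fun j p hp => by
        rw [hS] at hp
        exact (Pool.Agent.H563.AP.SS_sub hp).1) (fun j => by
        rw [hS]
        exact Pool.Agent.H563.AP.SS_card hδ a j) x hx
    refine h1.trans ?_
    exact mul_le_mul_of_nonneg_right (le_max_left _ _) (by positivity)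
  · have hCK : C ≤ max (24 * (16 / δ + 1)) (max C K₀) := (le_max_left _ _).trans (le_max_right _ _)
    have hKK : K₀ ≤ max (24 * (16 / δ + 1)) (max C K₀) := (le_max_right _ _).trans (le_max_right _ _)
    filter_upwards [t2.eventually hlib, hpos, t2.eventually hrange, eventually_ge_atTop 3] with j hj hP hR hj3
    obtain ⟨L, hL⟩ : ∃ L, L = Real.log ((2 ^ j : ℕ) : ℝ) := ⟨_, rfl⟩
    rw [← hL] at hj hP hR
    have hlog : L = j * Real.log 2 := by
      rw [hL]
      push_cast
      rw [Real.log_pow]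
    have hl1 := Real.log_two_gt_d9
    have hl2 := Real.log_two_lt_d9
    have hj3' : (3 : ℝ) ≤ j := by exact_mod_cast hj3
    have hLj : L ≤ j := by rw [hlog]; nlinarith
    have hjL : (j : ℝ) ≤ 2 * L := by rw [hlog]; nlinarith
    have hL1 : 1 ≤ L := by linarith
    have hlogL : Real.log L ≤ Real.log j := Real.log_le_log (by linarith) hLj
    have hlogL0 : 0 ≤ Real.log L := Real.log_nonneg hL1
    have key : ∀ a N : ℕ, ((a : ℝ) + 1) * Real.log L ≤ η₁ * L → 2 ^ j < N → N ≤ 2 * 2 ^ j →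
        N ∉ Pool.Agent.Results.MP_e3f158_nt.APrimePlusAlmostPrime.exceptional ε c a (2 ^ j) →
        j ≤ hits ε {q | ∃ j, q ∈ S a j} N := by
      intro a N ha h1 h2 h3
      have h4 := Pool.Agent.H563.AP.SS_hit (hP a ha) (N := N) (by
        unfold Pool.Agent.H563.AP.GN
        rw [Finset.mem_sdiff, mem_Ioc]
        exact ⟨⟨h1, h2⟩, h3⟩)
      refine h4.trans ?_
      apply hits_ge hε h1 h2
      intro q hq
      rw [mem_coe] at hq
      refine ⟨j, ?_⟩
      rw [hS]
      exact hq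
    have hpow : (2 : ℕ) ^ (j + 1) = 2 * 2 ^ j := by rw [pow_succ]; ring
    rw [hpow]
    constructor
    · intro a ha
      have ha1 : ((a : ℝ) + 1) * Real.log L ≤ η₁ * L := by
        have h1 : ((a : ℝ) + 1) * Real.log L ≤ ((a : ℝ) + 1) * Real.log j :=
          mul_le_mul_of_nonneg_left hlogL (by positivity)
        have h2 : η₁ / 2 * (j : ℝ) ≤ η₁ / 2 * (2 * L) := mul_le_mul_of_nonneg_left hjL (by positivity)
        linarith
      have ha0 : ((a : ℝ) + 1) * Real.log L ≤ η₀ * L :=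
        ha1.trans (mul_le_mul_of_nonneg_right hη₁1 (by linarith))
      have hsub : {N : ℕ | 2 ^ j < N ∧ N ≤ 2 * 2 ^ j ∧ ¬ j ≤ hits ε {q | ∃ j, q ∈ S a j} N} ⊆
          ((Pool.Agent.Results.MP_e3f158_nt.APrimePlusAlmostPrime.exceptional ε c a (2 ^ j) : Finset ℕ) : Set ℕ) := by
        rintro N ⟨h1, h2, h3⟩
        rw [mem_coe]
        by_contra hcon
        exact h3 (key a N ha1 h1 h2 hcon)
      have h1 := Set.ncard_le_ncard hsub (finite_toSet _)
      rw [Set.ncard_coe_finset] at h1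
      have h2 := (hj.1 a ha0).2
      calc ({N : ℕ | 2 ^ j < N ∧ N ≤ 2 * 2 ^ j ∧ ¬ j ≤ hits ε {q | ∃ j, q ∈ S a j} N}.ncard : ℝ)
          ≤ ((Pool.Agent.Results.MP_e3f158_nt.APrimePlusAlmostPrime.exceptional ε c a (2 ^ j)).card : ℝ) := by
            exact_mod_cast h1
        _ ≤ C * (K₀ * L) ^ a := h2
        _ ≤ _ := by
            apply mul_le_mul hCK _ (by positivity) (hC.le.trans hCK)
            apply pow_le_pow_left₀ (by positivity)
            exact mul_le_mul hKK hLj (by linarith) (hK₀.le.trans hKK)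
    · have hsub : {N : ℕ | 2 ^ j < N ∧ N ≤ 2 * 2 ^ j ∧ ¬ ∀ a : ℕ, f₂ a 0 ≤ N → j ≤ hits ε {q | ∃ j, q ∈ S a j} N} ⊆
          {N : ℕ | 2 ^ j < N ∧ N ≤ 2 * 2 ^ j ∧
            ¬ ∀ a : ℕ, Pool.Agent.Results.MP_e3f158_nt.APrimePlusAlmostPrime.f₂ a 0 ≤ N →
              c * (Pool.Agent.Results.MP_e3f158_nt.APrimePlusAlmostPrime.aPrimes a (2 ^ j)).card ≤
                (Pool.Agent.Results.MP_e3f158_nt.APrimePlusAlmostPrime.reps ε a (2 ^ j) N : ℝ)} := by
        rintro N ⟨h1, h2, h3⟩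
        refine ⟨h1, h2, fun h4 => h3 fun a ha => ?_⟩
        apply key a N (hR a N h2 ha) h1 h2
        intro h5
        unfold Pool.Agent.Results.MP_e3f158_nt.APrimePlusAlmostPrime.exceptional at h5
        rw [mem_filter] at h5
        exact absurd (h4 a ha) (not_le.2 h5.2)
      have h1 := Set.ncard_le_ncard hsub (by
        apply Set.Finite.subset (Set.finite_Iic (2 * 2 ^ j))
        rintro N ⟨_, h, _⟩
        exact h)
      have h2 : (Set.ncard {N : ℕ | 2 ^ j < N ∧ N ≤ 2 * 2 ^ j ∧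
            ¬ ∀ a : ℕ, Pool.Agent.Results.MP_e3f158_nt.APrimePlusAlmostPrime.f₂ a 0 ≤ N →
              c * (Pool.Agent.Results.MP_e3f158_nt.APrimePlusAlmostPrime.aPrimes a (2 ^ j)).card ≤
                (Pool.Agent.Results.MP_e3f158_nt.APrimePlusAlmostPrime.reps ε a (2 ^ j) N : ℝ)} : ℝ) ≤
          Real.exp (5 * (√L * Real.log L)) := hj.2
      refine le_trans (by exact_mod_cast h1) (h2.trans ?_)
      apply Real.exp_le_exp.2
      apply mul_le_mul_of_nonneg_left _ (by norm_num)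
      exact mul_le_mul (Real.sqrt_le_sqrt hLj) hlogL hlogL0 (Real.sqrt_nonneg _)

end Pool.Agent.Results.MP_e3f158_nt.ThinSetsOfIteratedPrimes
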